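import Pool.Agent.W217.BE.Stm3
import Pool.Agent.H379R3.Reg

set_option autoImplicit false

namespace Pool.Agent.W985.BEREG

open Pool.Agent.W217.BE

theorem regdom : REGDOM := by
  intro B _ _
  exact Pool.Agent.H379R3.isDomain B

theorem regq : REGQ := by
  intro B _ _ d hd
  have hdim : ringKrullDim B = ((d + 1 : ℕ) : WithBot ℕ∞) := by
    rw [← IsLocalRing.maximalIdeal_height_eq_ringKrullDim, hd]
    rfl
  have hdom : IsDomain B := Pool.Agent.H379R3.isDomain B
  have hex : ∃ x ∈ IsLocalRing.maximalIdeal B, x ∉ IsLocalRing.maximalIdeal B ^ 2 := by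
    by_contra hcon
    push Not at hcon
    have hle : IsLocalRing.maximalIdeal B ≤ IsLocalRing.maximalIdeal B ^ 2 := hcon
    have hbot : IsLocalRing.maximalIdeal B = ⊥ := by
      apply Submodule.eq_bot_of_le_smul_of_le_jacobson_bot (IsLocalRing.maximalIdeal B)
        (IsLocalRing.maximalIdeal B) (IsNoetherian.noetherian _)
      · rw [smul_eq_mul, ← pow_two]; exact hle
      · exact IsLocalRing.maximalIdeal_le_jacobson _
    have h0 : (IsLocalRing.maximalIdeal B).height = 0 := by
      rw [hbot]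
      exact Ideal.height_bot
    rw [h0] at hd
    exact absurd hd (by exact_mod_cast (Nat.succ_ne_zero d).symm)
  obtain ⟨x, hx, hx2⟩ := hex
  have hx0 : x ≠ 0 := by
    rintro rfl
    exact hx2 (zero_mem _)
  obtain ⟨h1, h2⟩ := Pool.Agent.H379R3.regular_quotient x hx hx2 d hdim
  refine ⟨x, hx, ?_, h1, ?_⟩
  · intro y hy
    exact (mul_eq_zero.1 hy).resolve_left hx0
  · have h3 := IsLocalRing.maximalIdeal_height_eq_ringKrullDim (R := B ⧸ Ideal.span {x})
    rw [h2] at h3
    exact_mod_cast h3

theorem main : REGDOM ∧ REGQ := ⟨regdom, regq⟩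

end Pool.Agent.W985.BEREG
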